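import Pool.Agent.T9h50.PE.Gnd
import Pool.Agent.T9h50.PE.Pat
import Pool.Agent.T9h50.PE.Nest

/-!
# Q1 of `MP_0f69bf_mp` fails for a fixed interaction if the uniform gap is dropped

Q1 asks whether the local states of the ground states of every translation invariant finite-range
Hamiltonian on the tori with a unique ground state AND a gap bounded below uniformly in the size can
be approximated, for all large sizes at once, by ONE translation invariant PEPS tensor. Here the
interaction is fixed, the ground states are unique, but there is no uniform gap.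

**Theorem.** (1) For EVERY sequence of bits `c` there is a Hermitian interaction `h` on `3 × 3` boxes
with `24` states per site (`Sym = Bool × Ty × Bool`, where `Ty` has six elements; the first component
of a label is the `phase`) such that for all odd `L ≥ 5` the Hamiltonian `H_L` on the `L × L` torus has
a unique ground state, and the one-site state of this ground state is supported on the phase `c L`.

(2) There is such an interaction `h` for which no translation invariant PEPS tensor of any bond
dimension approximates the one-site states of the ground states of `H_L` for all large odd `L`, up to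
an error `ε < 1` in trace norm.

Proof. (2) follows from (1) and the counting of the patterns of sizes which tensors can follow
(`Pool.Agent.T9h50.PE.part1`, as in the hand-in `SizeDependence`): almost every `c` cannot be
followed. For (1) every row of the torus is a reversible machine: one marker, one head and `L - 2`
bits on which the head runs through a reflected Gray code; the head makes one move at a time. The legal
rows form one cycle of exponential length `T` (all rows which are locally allowed have an odd number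
of markers, since two colours alternate along the row except at the markers and `L` is odd; so the
legal rows, with one marker, have the smallest potential). The kinetic energy of a row is
`2 - 2 cos (2 π δ / T)` where `δ` is the distance of the flux through the cycle to the integers. In
the phase `true` the flux is `L / 4`; in the phase `false` the flux is `θ L 2^(L-1)`, since the move at
the marker, which occurs `L 2^(L-1)` times in the cycle, has the phase factor `exp (2 π i θ)`. The
number `θ` can be chosen such that for every odd `L` this flux is at distance at most `1/6`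
(if `c L = false`) or at least `1/3` (if `c L = true`) of the integers, so it decides which phase has
the smaller energy.
-/

set_option autoImplicit false

open MeasureTheory
open Pool.Agent.T9h50.PE

noncomputable section

namespace Pool.Agent.Results.MP_0f69bf_mp.GapNeeded

section
variable {L : ℕ} [NeZero L]

open Classical in
lemma omR_true (hL : 5 ≤ L) (θ : ℝ) (g : LRow L) :
    omR hL θ true g = if IsA g.1 then ex (1 / 8) else 1 := by
  obtain ⟨h, h1, h2'⟩ := head_unique g.1 g.2
  have h2 : ∀ y, hd (g.1 y).1 = true → y = h := fun y hy => h2' y hy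
  have key : ((g.1 (mx hL g)).1 = .r ∧ (g.1 (mx hL g + 1)).1 = .s) ↔ IsA g.1 := by
    constructor
    · exact fun h => ⟨_, h⟩
    · rintro ⟨x, hx1, hx2⟩
      obtain ⟨u, hu, -⟩ := mx_spec hL g
      have hxh := h2 x (by rw [hx1]; rfl)
      rcases chk6 _ _ _ (by rw [hu]; rfl :
        (mv3 (g.1 (mx hL g)) (g.1 (mx hL g + 1)) (g.1 (mx hL g + 2))).isSome = true) with h3 | h3
      · have h4 := h2 (mx hL g) (by rw [h3]; rfl)
        rw [h4, ← hxh]
        exact ⟨hx1, hx2⟩
      · exfalso
        have h4 := h2 (mx hL g + 1) (by rw [h3]; rfl)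
        rw [h4, ← hxh, hx1] at h3
        exact absurd h3 (by decide)
  unfold omR wt
  rw [if_pos rfl]
  by_cases h : IsA g.1
  · rw [if_pos h, if_pos (key.2 h)]
  · rw [if_neg h, if_neg fun h' => h (key.1 h')]

open Classical in
lemma omR_false (hL : 5 ≤ L) (θ : ℝ) (g : LRow L) :
    omR hL θ false g = if IsB g.1 then ex θ else 1 := by
  obtain ⟨h, h1, h2'⟩ := head_unique g.1 g.2
  have h2 : ∀ y, hd (g.1 y).1 = true → y = h := fun y hy => h2' y hy
  have key : ((g.1 (mx hL g)).1 = .s ∧ (g.1 (mx hL g + 1)).1 = .l) ↔ IsB g.1 := by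
    constructor
    · exact fun h => ⟨_, h⟩
    · rintro ⟨x, hx1, hx2⟩
      obtain ⟨u, hu, -⟩ := mx_spec hL g
      have hxh := h2 (x + 1) (by rw [hx2]; rfl)
      rcases chk6 _ _ _ (by rw [hu]; rfl :
        (mv3 (g.1 (mx hL g)) (g.1 (mx hL g + 1)) (g.1 (mx hL g + 2))).isSome = true) with h3 | h3
      · exfalso
        have h4 := h2 (mx hL g) (by rw [h3]; rfl)
        rw [h4, ← hxh, hx2] at h3
        exact absurd h3 (by decide)
      · have h4 := h2 (mx hL g + 1) (by rw [h3]; rfl)
        have h5 : mx hL g = x := add_right_cancel (h4.trans hxh.symm)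
        rw [h5]
        exact ⟨hx1, hx2⟩
  unfold omR wt
  rw [if_neg (by decide : ¬ false = true)]
  by_cases h : IsB g.1
  · rw [if_pos h, if_pos (key.2 h)]
  · rw [if_neg h, if_neg fun h' => h (key.1 h')]

open Classical in
lemma prod_ind (P : LRow L → Prop) (z : ℂ) :
    ∏ g, (if P g then z else 1) = z ^ (Nat.card {g : LRow L // P g}) := by
  rw [Finset.prod_ite, Finset.prod_const, Finset.prod_const_one, mul_one, Nat.card_eq_fintype_card,
    Fintype.card_subtype]

/-- the flux of the phase `true` -/
def dA (L : ℕ) : ℝ := if L % 4 = 1 then 1 / 4 else -(1 / 4)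

lemma abs_dA (L : ℕ) : |dA L| = 1 / 4 := by
  unfold dA
  split_ifs
  · rw [abs_of_pos]; norm_num
  · rw [abs_neg, abs_of_pos]; norm_num

lemma flux_A (hL : 5 ≤ L) (hodd : L % 2 = 1) (θ : ℝ) : ∏ g, omR hL θ true g = ex (dA L) := by
  classical
  rw [Finset.prod_congr rfl fun g _ => omR_true hL θ g, prod_ind (fun g => IsA g.1), cntA hL hodd,
    ← ex_nat_mul]
  unfold dA
  by_cases h : L % 4 = 1
  · rw [if_pos h]
    obtain ⟨k, hk⟩ : ∃ k, L = 4 * k + 1 := ⟨L / 4, by omega⟩
    have h1 : ((L * 2 : ℕ) : ℝ) * (1 / 8) = 1 / 4 + ((k : ℤ) : ℝ) := by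
      rw [hk]; push_cast; ring
    rw [h1, ex_add, ex_int, mul_one]
  · rw [if_neg h]
    obtain ⟨k, hk⟩ : ∃ k, L = 4 * k + 3 := ⟨L / 4, by omega⟩
    have h1 : ((L * 2 : ℕ) : ℝ) * (1 / 8) = -(1 / 4) + (((k + 1 : ℕ) : ℤ) : ℝ) := by
      rw [hk]; push_cast; ring
    rw [h1, ex_add, ex_int, mul_one]

lemma flux_B (hL : 5 ≤ L) (hodd : L % 2 = 1) (θ : ℝ) (k : ℤ) :
    ∏ g, omR hL θ false g = ex (θ * (L * 2 ^ (L - 1) : ℕ) - k) := by
  classical
  rw [Finset.prod_congr rfl fun g _ => omR_false hL θ g, prod_ind (fun g => IsB g.1), cntB hL hodd,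
    ← ex_nat_mul]
  have h1 : ((L * 2 ^ (L - 1) : ℕ) : ℝ) * θ = (θ * (L * 2 ^ (L - 1) : ℕ) - k) + ((k : ℤ) : ℝ) := by
    ring
  rw [h1, ex_add, ex_int, mul_one]

lemma flux_exists (hL : 5 ≤ L) (hodd : L % 2 = 1) (θ : ℝ) (b : Bool)
    (h : ∃ k : ℤ, |θ * ((L * 2 ^ (L - 1) : ℕ) : ℝ) - (if b then 1 / 2 else 0) - k| ≤ 1 / 3 / 2) :
    ∃ δ : Bool → ℝ, Flux hL θ δ b := by
  obtain ⟨k, hk⟩ := h
  set X : ℝ := θ * ((L * 2 ^ (L - 1) : ℕ) : ℝ) with hX
  have hA := flux_A hL hodd θ
  cases b with
  | false =>
    simp only [Bool.false_eq_true, if_false, sub_zero] at hk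
    refine ⟨fun p => if p then dA L else X - k, ⟨?_, ?_, ?_⟩⟩
    · intro p
      cases p
      · exact flux_B hL hodd θ k
      · exact hA
    · intro p
      cases p
      · simp only [Bool.false_eq_true, if_false]
        linarith
      · simp only [if_true, abs_dA]
        norm_num
    · simp only [Bool.false_eq_true, if_false, Bool.not_false, if_true, abs_dA]
      linarith
  | true =>
    simp only [if_true] at hk
    rw [abs_le] at hk
    by_cases h1 : X - k ≤ 1 / 2
    · refine ⟨fun p => if p then dA L else X - k, ⟨?_, ?_, ?_⟩⟩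
      · intro p
        cases p
        · exact flux_B hL hodd θ k
        · exact hA
      · intro p
        cases p
        · simp only [Bool.false_eq_true, if_false]
          rw [abs_le]
          constructor <;> linarith
        · simp only [if_true, abs_dA]
          norm_num
      · simp only [Bool.not_true, Bool.false_eq_true, if_false, if_true, abs_dA]
        rw [abs_of_pos (by linarith)]
        linarith
    · push Not at h1
      refine ⟨fun p => if p then dA L else X - ((k + 1 : ℤ) : ℝ), ⟨?_, ?_, ?_⟩⟩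
      · intro p
        cases p
        · exact flux_B hL hodd θ (k + 1)
        · exact hA
      · intro p
        cases p
        · simp only [Bool.false_eq_true, if_false]
          push_cast
          rw [abs_le]
          constructor <;> linarith
        · simp only [if_true, abs_dA]
          norm_num
      · simp only [Bool.not_true, Bool.false_eq_true, if_false, if_true, abs_dA]
        push_cast
        rw [abs_of_neg (by linarith)]
        linarith

end

/-- the interaction with the pattern `c` -/
theorem exists_interaction (c : ℕ → Bool) : ∃ h : BConf Sym 3 → BConf Sym 3 → ℂ, Herm h ∧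
    ∀ (L : ℕ) [NeZero L], 5 ≤ L → L % 2 = 1 → UniqueGround h L ∧
      ∀ Ψ, IsGround h L Ψ → ∀ s, Ψ s ≠ 0 → (s (0, 0)).1 = c L := by
  obtain ⟨θ, hθ⟩ := nest (l := 1 / 3) (r := 4) (by norm_num) (by norm_num)
    (fun L => ((L * 2 ^ (L - 1) : ℕ) : ℝ)) (fun L => if c L then 1 / 2 else 0)
    {L | L % 2 = 1 ∧ 5 ≤ L} (by
      rintro L ⟨-, hL⟩
      have : 1 ≤ L * 2 ^ (L - 1) := Nat.mul_pos (by omega) (by positivity)
      exact_mod_cast this) (by
      rintro L ⟨hL, hL5⟩ L' ⟨hL', -⟩ hlt
      have h1 : L + 2 ≤ L' := by omega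
      have h2 : 2 ^ (L - 1 + 2) ≤ 2 ^ (L' - 1) := Nat.pow_le_pow_right (by norm_num) (by omega)
      have h3 : 4 * (L * 2 ^ (L - 1)) ≤ L' * 2 ^ (L' - 1) := by
        calc 4 * (L * 2 ^ (L - 1)) = L * 2 ^ (L - 1 + 2) := by rw [pow_add]; ring
          _ ≤ L' * 2 ^ (L' - 1) := Nat.mul_le_mul (by omega) h2
      exact_mod_cast h3)
  refine ⟨hh θ, hop_herm _ _ _ _, fun L _ hL hodd => ?_⟩
  obtain ⟨δ, hδ⟩ := flux_exists hL hodd θ (c L) (hθ L ⟨hodd, hL⟩)
  exact ground hL hodd θ δ (c L) hδ

lemma superLog_odd : SuperLog ({L | L % 2 = 1} ∩ Set.Ici 5) := by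
  apply superLog_tail
  intro C
  have h1 := (Real.isLittleO_log_id_atTop.bound (show (0 : ℝ) < 1 / (2 * (|C| + 1)) by positivity))
  have h2 := (tendsto_natCast_atTop_atTop (R := ℝ)).eventually h1
  obtain ⟨n, hn⟩ := Filter.eventually_atTop.1 h2
  refine ⟨2 * (n + 1), by omega, ?_⟩
  have h3 := hn (2 * (n + 1)) (by omega)
  simp only [id, Real.norm_eq_abs] at h3
  have h4 : (0 : ℝ) ≤ ((2 * (n + 1) : ℕ) : ℝ) := Nat.cast_nonneg _
  rw [abs_of_nonneg h4] at h3
  have h5 : C * Real.log ((2 * (n + 1) : ℕ) : ℝ) ≤ |C| * |Real.log ((2 * (n + 1) : ℕ) : ℝ)| := by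
    rw [← abs_mul]
    exact le_abs_self _
  have h6 : |C| * |Real.log ((2 * (n + 1) : ℕ) : ℝ)| ≤ (n + 1 : ℕ) := by
    calc |C| * |Real.log ((2 * (n + 1) : ℕ) : ℝ)|
        ≤ (|C| + 1) * (1 / (2 * (|C| + 1)) * ((2 * (n + 1) : ℕ) : ℝ)) := by
          gcongr
          linarith
      _ = (n + 1 : ℕ) := by
          push_cast
          field_simp
  have h7 : n + 1 ≤ ({L | L % 2 = 1} ∩ Set.Icc 1 (2 * (n + 1))).ncard := by
    have h8 : (((Finset.range (n + 1)).image fun k => 2 * k + 1 : Finset ℕ) : Set ℕ) ⊆
        {L | L % 2 = 1} ∩ Set.Icc 1 (2 * (n + 1)) := by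
      intro x hx
      simp only [Finset.coe_image, Finset.coe_range, Set.mem_image, Set.mem_Iio] at hx
      obtain ⟨k, hk, rfl⟩ := hx
      refine ⟨?_, ?_, ?_⟩
      · change (2 * k + 1) % 2 = 1
        omega
      · omega
      · omega
    have h9 := Set.ncard_le_ncard h8 ((Set.finite_Icc 1 _).subset Set.inter_subset_right)
    rw [Set.ncard_coe_finset, Finset.card_image_of_injective _ (fun a b (h : 2 * a + 1 = 2 * b + 1) =>
      by omega), Finset.card_range] at h9
    exact h9
  have h8 : ((n + 1 : ℕ) : ℝ) ≤ (({L | L % 2 = 1} ∩ Set.Icc 1 (2 * (n + 1))).ncard : ℝ) := by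
    exact_mod_cast h7
  linarith

/-- **Theorem.** (1) For every sequence of bits `c` there is a Hermitian interaction `h` on `3 × 3`
boxes (`24` states per site, the labels `Sym`) such that for all odd `L ≥ 5` the Hamiltonian `H_L` has a
unique ground state and its one-site state is supported on the labels with first component `c L`.
(2) There is a Hermitian interaction `h` on `3 × 3` boxes (`24` states per site) such that `H_L` has a
unique ground state for all odd `L ≥ 5`, and for every choice `Ψ L` of these ground states, every `D`,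
every translation invariant PEPS tensor of bond dimension `D` and every `ε < 1` the tensor does not
approximate the one-site states of the `Ψ L` up to `ε` for all large odd `L`. -/
theorem result :
    (∀ c : ℕ → Bool, ∃ h : BConf Sym 3 → BConf Sym 3 → ℂ, Herm h ∧
      ∀ (L : ℕ) [NeZero L], 5 ≤ L → L % 2 = 1 → UniqueGround h L ∧
        ∀ Ψ, IsGround h L Ψ → ∀ s, Ψ s ≠ 0 → (s (0, 0)).1 = c L) ∧
    (∃ h : BConf Sym 3 → BConf Sym 3 → ℂ, Herm h ∧
      (∀ (L : ℕ) [NeZero L], 5 ≤ L → L % 2 = 1 → UniqueGround h L) ∧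
      ∀ Ψ : ∀ (L : ℕ) [NeZero L], Conf Sym L → ℂ,
        (∀ (L : ℕ) [NeZero L], 5 ≤ L → L % 2 = 1 → IsGround h L (Ψ L)) →
        ∀ (D : ℕ) (A : Tensor Sym D) (ε : ℝ), ε < 1 → ¬ ApproxOn {L | L % 2 = 1} origin A Ψ ε) := by
  refine ⟨exists_interaction, ?_⟩
  haveI : IsProbabilityMeasure coin := by
    unfold coin
    infer_instance
  obtain ⟨c, hc⟩ := (part1 (α := Sym) Prod.fst _ superLog_odd).exists
  obtain ⟨h, hH, hg⟩ := exists_interaction c
  refine ⟨h, hH, fun L _ hL hodd => (hg L hL hodd).1, fun Ψ hΨ D A ε hε hA => ?_⟩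
  refine hc Ψ (fun L _ hL => ⟨?_, fun s hs => ?_⟩) D A ε hε ?_
  · rw [(hΨ L hL.2 hL.1).1]
    exact one_ne_zero
  · exact (hg L hL.2 hL.1).2 _ (hΨ L hL.2 hL.1) s hs
  · obtain ⟨L₁, h1⟩ := hA
    exact ⟨L₁, fun L _ hL hL' => h1 L hL hL'.1⟩

end Pool.Agent.Results.MP_0f69bf_mp.GapNeeded
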