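import Pool.Agent.T9h50.PE.Cod

/-!
# Ground states of a fixed interaction whose gap is not exponentially small follow few patterns

In Q1 of `MP_0f69bf_mp` the interaction is fixed and the gap is bounded below. The hand-ins
`SizeDependence` and `GapNeeded` show that a dependence of the one-site states on the size `L` by a
generic sequence `c` of bits cannot be followed by a PEPS tensor, and that such a dependence occurs for
a fixed interaction with unique ground states, if the gap may be exponentially small. Here we show
that this obstruction to Q1 does not occur for gapped interactions, and also not for interactions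
whose gap decays more slowly than a certain exponential function:

**Theorem.** Let `P` be a property of the basis states of a site and let `𝓛` be a set of sizes with
`#(𝓛 ∩ [1, N]) ≠ O(log N)`. For almost every sequence `c` of fair coin tosses there is no Hermitian
interaction on `q × q` boxes (for any `q`) such that for all large sizes `L ∈ 𝓛` the ground state of
`H_L` is unique with a gap of at least `Δ L^(-k) exp (-#(𝓛 ∩ [1, L]) / (4 b²))`, where
`b = |α|^(q²)` is the number of the configurations of a box, and its one-site state is within `ε < 1`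
in trace norm of a state which is supported on the basis states with `P = c L`. Here `Δ > 0`, `k` and
`ε < 1` are arbitrary.

For `𝓛` the set of all sizes this covers all gaps which are at least `exp (-L / (4 b²))`, for instance
all gaps bounded below by inverse polynomials. So the exponential smallness of the gap is necessary
for the size dependence in `GapNeeded` (for generic `c`), and a counterexample to Q1 cannot be found by
the same counting of patterns: with a uniform gap the ground states of ALL interactions of a given
range follow only polynomially many patterns.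

Proof. If two interactions are closer than `η` then the ground states of `H_L` and `H'_L` have the
overlap `1 - |⟨Ψ, Ψ'⟩|² ≤ 2 L² b η / gap`. So the interactions with bounded entries can be divided into
`(poly (N) / gap)^(2 b²)` classes such that the interactions in one class follow the same pattern at
the sizes up to `N`; compare this number with the number `2^#(𝓛 ∩ [1, N])` of all patterns.
-/

set_option autoImplicit false

open MeasureTheory
open scoped BigOperators ComplexConjugate
open Pool.Agent.T9h50.PE

noncomputable section

namespace Pool.Agent.Results.MP_0f69bf_mp.GapPatterns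

/-- **Theorem.** Let `𝓛` be a set of sizes with `#(𝓛 ∩ [1, N]) ≠ O(log N)`, and `P` a property of the
basis states. For almost every sequence `c` of fair coin tosses the following holds. If `Φ L` are
vectors whose one-site states are supported on `P = c L` (`L ∈ 𝓛`), then there are no `q`, `k`,
`Δ > 0`, `ε < 1` and Hermitian interaction `h` on `q × q` boxes such that for all large `L ∈ 𝓛` the
Hamiltonian `H_L` has a unique ground state `Ψ L`, with a gap of at least
`gapFn 𝓛 b Δ k L = Δ L^(-k) exp (-#(𝓛 ∩ [1, L]) / (4 b²))`, `b` the number of the configurations of a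
`q × q` box, whose one-site state is within `ε` in trace norm of the one-site state of `Φ L`. -/
theorem result {α : Type} [Fintype α] (𝓛 : Set ℕ) (h𝓛 : SuperLog 𝓛) (P : α → Bool) :
    ∀ᵐ c ∂coin, ∀ Φ : ∀ (L : ℕ) [NeZero L], Conf α L → ℂ, HasPattern P 𝓛 c Φ →
      ∀ (q k : ℕ) (Δ ε : ℝ) (h : BConf α q → BConf α q → ℂ), 0 < Δ → ε < 1 → Herm h →
        ∀ Ψ : ∀ (L : ℕ) [NeZero L], Conf α L → ℂ,
          ¬ ∃ L₁ : ℕ, ∀ (L : ℕ) [NeZero L], L₁ ≤ L → L ∈ 𝓛 →
            Gapped h L (Ψ L) (gapFn 𝓛 (Fintype.card (BConf α q)) Δ k L) ∧
              Close origin (Φ L) (Ψ L) ε := by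
  have h1 : ∀ᵐ c ∂coin, ∀ q k m M n : ℕ, q ≤ n → c ∉ Fol P 𝓛 q k m M n := by
    rw [ae_all_iff]; intro q
    rw [ae_all_iff]; intro k
    rw [ae_all_iff]; intro m
    rw [ae_all_iff]; intro M
    rw [ae_all_iff]; intro n
    by_cases hqn : q ≤ n
    · have h2 := fol_null P 𝓛 h𝓛 q k m M n hqn
      have h3 : ∀ᵐ c ∂coin, c ∉ Fol P 𝓛 q k m M n := by
        rw [ae_iff]
        simpa only [not_not, Set.setOf_mem_eq] using h2
      filter_upwards [h3] with c hc _ using hc
    · exact Filter.Eventually.of_forall fun c h => absurd h hqn
  filter_upwards [h1] with c hc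
  rintro Φ hΦ q k Δ ε h hΔ hε hh Ψ ⟨L₁, hL₁⟩
  obtain ⟨m, hm⟩ := exists_nat_one_div_lt (show 0 < min Δ (1 - ε) from lt_min hΔ (by linarith))
  obtain ⟨M, hM⟩ := exists_nat_ge (∑ σ, ∑ τ, ‖h σ τ‖)
  refine hc q k m M (max L₁ q) (le_max_right _ _) ⟨h, hh, fun σ τ => ?_, fun L _ hL hL𝓛 => ?_⟩
  · have h2 : ‖h σ τ‖ ≤ M := by
      refine le_trans ?_ hM
      refine le_trans ?_ (Finset.single_le_sum (f := fun σ => ∑ τ, ‖h σ τ‖)
        (fun _ _ => Finset.sum_nonneg fun _ _ => norm_nonneg _) (Finset.mem_univ σ))
      exact Finset.single_le_sum (f := fun τ => ‖h σ τ‖) (fun _ _ => norm_nonneg _)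
        (Finset.mem_univ τ)
    exact ⟨(Complex.abs_re_le_norm _).trans h2, (Complex.abs_im_le_norm _).trans h2⟩
  · obtain ⟨h2, h3⟩ := hL₁ L ((le_max_left _ _).trans hL) hL𝓛
    refine ⟨Ψ L, h2.mono ?_, ?_⟩
    · unfold gapFn
      have h4 : 1 / ((m : ℝ) + 1) ≤ Δ := (hm.trans_le (min_le_left _ _)).le
      gcongr
    · have h4 := margin_of_close P (c L) (Φ L) (Ψ L) ε (hΦ L hL𝓛).1 (hΦ L hL𝓛).2 h2.1 h3
      refine le_trans ?_ h4
      exact (hm.trans_le (min_le_right _ _)).le

end Pool.Agent.Results.MP_0f69bf_mp.GapPatterns
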