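import Pool.Agent.T9h50.PL.Sel
import Pool.Agent.T9h50.PL.Blk

/-!
# Local PEPS approximation along lacunary sets of sizes

Problem `MP_0f69bf_mp` (local PEPS approximation of gapped 2D ground states), Q1.

Let `𝓛` be a lacunary set of torus sizes: `λ L ≤ L'` for all `L < L'` in `𝓛`, with a constant
`λ > √3`. We prove that along `𝓛` the conclusion of Q1 holds for *all* families of ground states (and
in fact for all families of translation invariant vectors), without any assumption on a spectral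
gap or on the convergence of the reduced states, and with a bond dimension which depends only on the
local dimension `d`, the region `R`, the accuracy `ε` and `λ`.

Proof. A compactness argument and the block construction of `Pool.Agent.H4R2` give finitely many
tensors `A_j`, `j ≤ N`, such that every translation invariant unit vector on a large torus has a
reduced state on `R` close to the one of some `A_j`; the vectors of the `A_j` have equal norms. The
direct sum of the networks `A_j` with the weights `(2 cos (π θ_j L²))^k` is a translation invariant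
PEPS of bounded bond dimension. As `𝓛` is lacunary, the angles `θ_j` can be chosen (nested intervals)
such that for all `L ∈ 𝓛` the weight of the prescribed `j = j(L)` is by a factor `q^{-k}`, `q < 1`,
larger than the other weights; `k` is a large constant.
-/

set_option autoImplicit false
set_option linter.unusedSectionVars false

open scoped BigOperators Topology
open Finset Filter
open Pool.Agent.H4R2 Pool.Agent.T9h50.PL

noncomputable section

namespace Pool.Agent.Results.MP_0f69bf_mp.LacunarySizes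

lemma traceNorm_le' {d : ℕ} (R : Finset (ℤ × ℤ)) (hd : 2 ≤ d) (X : Matrix (R → Fin d) (R → Fin d) ℂ)
    (ε : ℝ) (hε : 0 < ε) (h : ∀ a b, ‖X a b‖ ≤ ε / ((d : ℝ) ^ R.card) ^ 2) : traceNorm X ≤ ε := by
  have hdp : (0 : ℝ) < (d : ℝ) ^ R.card := by
    have : (0 : ℝ) < d := by exact_mod_cast (by omega : 0 < d)
    positivity
  refine (traceNorm_le X _ (by positivity) h).trans ?_
  simp only [Fintype.card_pi, Fintype.card_fin, prod_const, card_univ, Fintype.card_coe]
  push_cast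
  rw [mul_div_cancel₀]
  positivity

/-- For all large sizes `L` in `𝓛` the PEPS vector of the tensor `A` is nonzero and its reduced state
on the region `R` is `ε`-close in trace norm to the one of `ψ L`. -/
def ApproxAlong {d D : ℕ} (𝓛 : Set ℕ) (R : Finset (ℤ × ℤ)) (ε : ℝ)
    (ψ : ∀ (L : ℕ) [NeZero L], (Site L → Fin d) → ℂ) (A : Tensor d D) : Prop :=
  ∃ L₁ : ℕ, ∀ (L : ℕ) [NeZero L], L₁ ≤ L → L ∈ 𝓛 → contract A L ≠ 0 ∧
    traceNorm (redState R (ψ L) - redState R (contract A L)) ≤ ε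

theorem main (d : ℕ) (hd : 2 ≤ d) (R : Finset (ℤ × ℤ)) (ε : ℝ) (hε : 0 < ε) (lam : ℝ)
    (h0 : 0 < lam) (hlam : 3 < lam ^ 2) : ∃ D : ℕ, ∀ 𝓛 : Set ℕ,
      (∀ L ∈ 𝓛, ∀ L' ∈ 𝓛, L < L' → lam * L ≤ L') →
      ∀ ψ : ∀ (L : ℕ) [NeZero L], (Site L → Fin d) → ℂ,
      (∃ L₁ : ℕ, ∀ (L : ℕ) [NeZero L], L₁ ≤ L → L ∈ 𝓛 → normSq (ψ L) = 1 ∧ TransInv (ψ L)) →
      ∃ A : Tensor d D, ApproxAlong 𝓛 R ε ψ A := by
  classical
  obtain ⟨M, hM⟩ : ∃ M : ℕ, M = side d R ε := ⟨_, rfl⟩
  have hMpos : 0 < M := by rw [hM]; unfold side; omega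
  have : NeZero M := ⟨hMpos.ne'⟩
  obtain ⟨L₀, N, Φ, hL₀, hΦ1, hΦ2⟩ := exists_net d hd R ε hε M hM
  obtain ⟨q, hq0, hq1, hq⟩ := angles lam h0 hlam
  have hdp : (0 : ℝ) < (d : ℝ) ^ R.card := by
    have : (0 : ℝ) < d := by exact_mod_cast (by omega : 0 < d)
    positivity
  -- choice of `k`
  set η₀ : ℝ := min (1 / 6) (ε / ((d : ℝ) ^ R.card) ^ 2 / 24) with hη₀
  have hη₀pos : 0 < η₀ := by positivity
  obtain ⟨k, hk⟩ : ∃ k : ℕ, (N : ℝ) * q ^ k ≤ η₀ := by
    have h1 : Tendsto (fun k : ℕ => (N : ℝ) * q ^ k) atTop (𝓝 0) := by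
      have := (tendsto_pow_atTop_nhds_zero_of_lt_one hq0.le hq1).const_mul (N : ℝ)
      rwa [mul_zero] at this
    exact (h1.eventually_le_const hη₀pos).exists
  -- the bond dimension
  refine ⟨Fintype.card ((Fin N × (Fin k → Bool)) × Lab d M), fun 𝓛 h𝓛 ψ hψ => ?_⟩
  obtain ⟨L₁, hL₁⟩ := hψ
  obtain ⟨e⟩ : Nonempty (Fin (Fintype.card ((Fin N × (Fin k → Bool)) × Lab d M)) ≃
    (Fin N × (Fin k → Bool)) × Lab d M) := ⟨(Fintype.equivFin _).symm⟩
  by_cases hN : N = 0
  · -- no large sizes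
    refine ⟨fun _ _ _ _ _ => 0, max L₀ L₁, fun L _ hL hL𝓛 => ?_⟩
    obtain ⟨h1, h2⟩ := hL₁ L ((le_max_right _ _).trans hL) hL𝓛
    obtain ⟨i, _⟩ := hΦ2 L ((le_max_left _ _).trans hL) (ψ L) h1 h2
    have := i.isLt
    omega
  have hNpos : 0 < N := Nat.pos_of_ne_zero hN
  -- the selection
  have hsel : ∀ L : ℕ, ∃ i : Fin N, ∀ [NeZero L], max L₀ L₁ ≤ L → L ∈ 𝓛 →
      ∀ (L' : ℕ) [NeZero L'], L₀ ≤ L' → ∀ a b,
          ‖redState R (contract (tens hd (Φ i)) L') a b - redState R (ψ L) a b‖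
            ≤ 3 / 4 * (ε / ((d : ℝ) ^ R.card) ^ 2) := by
    intro L
    by_cases hc : NeZero L ∧ max L₀ L₁ ≤ L ∧ L ∈ 𝓛
    · obtain ⟨hL0, hL, hL𝓛⟩ := hc
      obtain ⟨h1, h2⟩ := hL₁ L ((le_max_right _ _).trans hL) hL𝓛
      obtain ⟨i, hi⟩ := hΦ2 L ((le_max_left _ _).trans hL) (ψ L) h1 h2
      exact ⟨i, fun _ _ => hi⟩
    · refine ⟨⟨0, hNpos⟩, ?_⟩
      intro hL0 hL hL𝓛
      exact absurd ⟨hL0, hL, hL𝓛⟩ hc
  choose σ hσ using hsel
  obtain ⟨θ, hθ⟩ := hq 𝓛 h𝓛 σ
  set T := dsum (HC (d := d) (M := M)) VC (fun i : Fin N => wt hd (Φ i)) θ k with hT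
  refine ⟨fun s l r u n => T s (e l) (e r) (e u) (e n), max (max L₀ L₁) 1, fun L _ hL hL𝓛 => ?_⟩
  have hcon : contract (fun s l r u n => T s (e l) (e r) (e u) (e n)) L =
      fun s => ∑ j, wgt (θ j) k L * contract (tens hd (Φ j)) L s := by
    funext s
    rw [contract_equiv e T L s, hT, contract_dsum]
    rfl
  rw [hcon]
  have hLmax : max L₀ L₁ ≤ L := (le_max_left _ _).trans hL
  have hLL₀ : L₀ ≤ L := (le_max_left _ _).trans hLmax
  have hL1 : 1 ≤ L := (le_max_right _ _).trans hL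
  obtain ⟨hw0, hw⟩ := hθ L hL𝓛 hL1 k
  have hPat : Nonempty (Pat M L) := exists_pat (hL₀.trans hLL₀)
  have hP : (0 : ℝ) < (Fintype.card (Pat M L) : ℝ) ^ 2 := by
    have : 0 < Fintype.card (Pat M L) := Fintype.card_pos
    positivity
  obtain ⟨h1, h2⟩ := redState_dom R (fun j => contract (tens hd (Φ j)) L) (fun j => wgt (θ j) k L)
    (σ L) _ (q ^ k) hP (fun j => normSq_contract hd (Φ j) (hΦ1 j)) (by positivity) hw0 hw (by
      rw [Fintype.card_fin]
      exact hk.trans (min_le_left _ _))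
  refine ⟨fun hz => ?_, traceNorm_le' R hd _ ε hε fun a b => ?_⟩
  · rw [hz] at h1
    simp [normSq] at h1
  · have h3 := h2 a b
    have h4 := hσ L hLmax hL𝓛 L hLL₀ a b
    rw [Fintype.card_fin] at h3
    have h5 : 6 * ((N : ℝ) * q ^ k) ≤ 1 / 4 * (ε / ((d : ℝ) ^ R.card) ^ 2) := by
      have := hk.trans (min_le_right _ _)
      linarith
    rw [Matrix.sub_apply]
    have h6 : redState R (ψ L) a b -
        redState R (fun s => ∑ j, wgt (θ j) k L * contract (tens hd (Φ j)) L s) a b =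
        -(redState R (contract (tens hd (Φ (σ L))) L) a b - redState R (ψ L) a b) -
        (redState R (fun s => ∑ j, wgt (θ j) k L * contract (tens hd (Φ j)) L s) a b -
          redState R (contract (tens hd (Φ (σ L))) L) a b) := by ring
    rw [h6]
    refine (norm_sub_le _ _).trans ?_
    rw [norm_neg]
    linarith

/-- **Theorem.** Let `d ≥ 2`, `R` a finite region, `ε > 0` and `λ > √3`. There is a bond dimension `D`
(depending only on these data) such that for every set `𝓛` of sizes with `λ L ≤ L'` for all `L < L'`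
in `𝓛` the following hold.
(1) For all translation invariant unit vectors `ψ L`, `L ∈ 𝓛`, there is one translation invariant PEPS
tensor `A` of bond dimension `D` which approximates the reduced states on `R` up to `ε` in trace norm
for all large `L ∈ 𝓛`.
(2) In particular this holds for the unique ground states `ψ L` of `H_L`, `L ∈ 𝓛`, for every translation
invariant interaction `h` on any finite set `B` of sites (gapped or not; `h` and `B` may even depend
on the size). -/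
theorem result (d : ℕ) (hd : 2 ≤ d) (R : Finset (ℤ × ℤ)) (ε : ℝ) (hε : 0 < ε) (lam : ℝ)
    (h0 : 0 < lam) (hlam : 3 < lam ^ 2) : ∃ D : ℕ, ∀ 𝓛 : Set ℕ,
      (∀ L ∈ 𝓛, ∀ L' ∈ 𝓛, L < L' → lam * L ≤ L') →
      (∀ ψ : ∀ (L : ℕ) [NeZero L], (Site L → Fin d) → ℂ,
        (∃ L₁ : ℕ, ∀ (L : ℕ) [NeZero L], L₁ ≤ L → L ∈ 𝓛 → normSq (ψ L) = 1 ∧ TransInv (ψ L)) →
        ∃ A : Tensor d D, ApproxAlong 𝓛 R ε ψ A) ∧
      (∀ (B : ℕ → Finset (ℤ × ℤ)) (h : ∀ L, Matrix (B L → Fin d) (B L → Fin d) ℂ)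
        (ψ : ∀ (L : ℕ) [NeZero L], (Site L → Fin d) → ℂ),
        (∃ L₁ : ℕ, ∀ (L : ℕ) [NeZero L], L₁ ≤ L → L ∈ 𝓛 →
          normSq (ψ L) = 1 ∧ IsGappedGround (ham (B L) (h L) L) 0 (ψ L)) →
        ∃ A : Tensor d D, ApproxAlong 𝓛 R ε ψ A) := by
  obtain ⟨D, hD⟩ := main d hd R ε hε lam h0 hlam
  refine ⟨D, fun 𝓛 h𝓛 => ⟨hD 𝓛 h𝓛, fun B h ψ hψ => hD 𝓛 h𝓛 ψ ?_⟩⟩
  obtain ⟨L₁, hL₁⟩ := hψ
  refine ⟨L₁, fun L _ hL hL𝓛 => ?_⟩
  obtain ⟨h1, h2⟩ := hL₁ L hL hL𝓛
  exact ⟨h1, transInv_of_ground (B L) (h L) 0 (ψ L) h2⟩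

end Pool.Agent.Results.MP_0f69bf_mp.LacunarySizes
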