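import Pool.Agent.T9h50.PE.Sign
import Pool.Agent.T9h50.PE.AE
import Pool.Agent.T9h50.PE.Nest
import Pool.Agent.T9h50.PE.Lac
import Pool.Agent.T9h50.PE.Cat

/-!
# Which dependences on the size of the torus can one PEPS tensor follow?

In Q1 of `MP_0f69bf_mp` ONE translation invariant tensor has to approximate the local states of the
ground states on ALL large `L × L` tori. When the local states converge as `L → ∞` this is known to
be possible; the remaining problem is the dependence on `L`. Here the families of states which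
depend on `L` in the simplest possible way are treated: for a sequence `c` of bits,
`Ψ^[L] = |a a ... a⟩` if `c L` is true and `Ψ^[L] = |b b ... b⟩` otherwise. This is the unique ground
state of the sum of the one-site projections `1 - |a⟩⟨a|`, respectively `1 - |b⟩⟨b|`, with gap `1`;
only the interaction depends on `L`.

Let `𝓛` be a set of sizes.

(1) If the number of the elements of `𝓛` in `[1, N]` is not `O(log N)` (for example if `𝓛` contains all
sizes, or the squares) then for ALMOST EVERY sequence `c` no translation invariant tensor of any bond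
dimension approximates the one-site states of the `Ψ^[L]`, `L ∈ 𝓛` large, up to an error `ε < 1` in
trace norm (the trivial bound is `2`). The same holds for all families of vectors `Ψ^[L]` whose
one-site state is supported on the basis states with `P = c L`, where `P` is any property of the basis
states.

(2) If `𝓛` is lacunary, `L' ≥ 5 L` for `L < L'` in `𝓛`, then for EVERY sequence `c` one tensor of bond
dimension `3` approximates the states of the `Ψ^[L]`, `L ∈ 𝓛`, on all finite regions with error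
tending to `0`.

So the conclusion of Q1 fails for gapped families with unique product ground states if the
interaction is allowed to depend on `L` (with two values), and by (2) the order `log N` in (1) is
optimal. (The bound `ε < 1` is optimal as well: the state `|a...a⟩ + |b...b⟩` has a tensor of bond
dimension `2`, and its one-site states have distance `1` from `|a⟩⟨a|` and from `|b⟩⟨b|`.)

Proof. (1) The sign of `⟨Ψ_A^[L]| (2 P_0 - 1) |Ψ_A^[L]⟩` is the sign of a real polynomial of degree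
`2 L²` in the `2 |α| D⁴` real parameters of the tensor `A`. By the theorem of Warren type in
`Pool.Agent.H247R2.Warren` the tensors of bond dimension `D` give at most
`(8 |W| N² + 1)^(2 |α| D⁴)` patterns on a set `W` of sizes up to `N`, and there are `2^|W|` patterns.
(2) The state of a suitable tensor `A_θ` is `(2 cos (π θ L))^L |a...a⟩ + |b...b⟩`, and `θ L` modulo `1`
can be prescribed for all `L` in a lacunary set.
-/

set_option autoImplicit false

open MeasureTheory
open Pool.Agent.T9h50.PE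

noncomputable section

namespace Pool.Agent.Results.MP_0f69bf_mp.SizeDependence

/-- For the sizes `L ∈ 𝓛` the vector `Ψ L` is nonzero and its one-site state is supported on the basis
states with the value `c L` of `P`. -/
def HasPattern {α : Type} [Fintype α] (P : α → Bool) (𝓛 : Set ℕ) (c : ℕ → Bool)
    (Ψ : ∀ (L : ℕ) [NeZero L], Conf α L → ℂ) : Prop :=
  ∀ (L : ℕ) [NeZero L], L ∈ 𝓛 → nrm (Ψ L) ≠ 0 ∧ ∀ s, Ψ L s ≠ 0 → P (s (0, 0)) = c L

/-- `|a ... a⟩` on the tori with `c L = true` and `|b ... b⟩` on the others. -/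
def constFamily {α : Type} [Fintype α] (a b : α) (c : ℕ → Bool) :
    ∀ (L : ℕ) [NeZero L], Conf α L → ℂ :=
  fun L _ => if c L then prodVec a L else prodVec b L

lemma growth {α : Type} [Fintype α] (P : α → Bool) (𝓛 : Set ℕ) (D n : ℕ) :
    PolyGrowth (𝓛 ∩ Set.Ici n) {c | ∃ A : Tensor α D, ∀ (L : ℕ) [NeZero L], n ≤ L → L ∈ 𝓛 →
      Sgn (c L) (bias P (peps A L))} := by
  refine ⟨6 * (2 * Fintype.card α * D ^ 4), 1, fun N W hW S hS => ?_⟩
  have h1 := pattern_count (α := α) P D N W (fun L hL => ⟨(hW L hL).2.1, (hW L hL).2.2⟩) S (by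
    intro τ hτ
    obtain ⟨c, ⟨A, hA⟩, hc⟩ := hS τ hτ
    refine ⟨A, fun L _ hL => ?_⟩
    have := hA L (hW L hL).1.2 (hW L hL).1.1
    rwa [hc ⟨L, hL⟩] at this)
  have h2 : W.card ≤ N := by
    have h3 : W ⊆ Finset.Icc 1 N := fun L hL => Finset.mem_Icc.2 ⟨(hW L hL).2.1, (hW L hL).2.2⟩
    simpa using Finset.card_le_card h3
  have h3 : 8 * W.card * N ^ 2 + 1 ≤ (N + 1) ^ 6 := by
    have h4 : 8 * W.card * N ^ 2 ≤ 8 * N ^ 3 := by
      calc 8 * W.card * N ^ 2 ≤ 8 * N * N ^ 2 := by gcongr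
        _ = 8 * N ^ 3 := by ring
    rcases Nat.eq_zero_or_pos N with h5 | h5
    · subst h5
      simp
    · have h6 : 8 * (N ^ 3 + 1) ≤ (N + 1) ^ 6 := by
        have h7 : 2 ^ 3 ≤ (N + 1) ^ 3 := Nat.pow_le_pow_left (by omega) 3
        have h8 : N ^ 3 + 1 ≤ (N + 1) ^ 3 := by nlinarith
        calc 8 * (N ^ 3 + 1) ≤ (N + 1) ^ 3 * (N + 1) ^ 3 := Nat.mul_le_mul h7 h8
          _ = (N + 1) ^ 6 := by ring
      omega
  have h4 : S.card ≤ (N + 1) ^ (6 * (2 * Fintype.card α * D ^ 4)) := by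
    rw [pow_mul]
    exact h1.trans (Nat.pow_le_pow_left h3 _)
  rw [one_mul]
  exact_mod_cast h4

theorem part1 {α : Type} [Fintype α] (P : α → Bool) (𝓛 : Set ℕ) (h𝓛 : SuperLog 𝓛) :
    ∀ᵐ c ∂coin, ∀ Ψ : ∀ (L : ℕ) [NeZero L], Conf α L → ℂ, HasPattern P 𝓛 c Ψ →
      ∀ (D : ℕ) (A : Tensor α D) (ε : ℝ), ε < 1 → ¬ ApproxOn 𝓛 origin A Ψ ε := by
  have h1 : ∀ D n : ℕ, ∀ᵐ c ∂coin, ¬ ∃ A : Tensor α D, ∀ (L : ℕ) [NeZero L], n ≤ L → L ∈ 𝓛 →
      Sgn (c L) (bias P (peps A L)) := by
    intro D n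
    have h2 := null_of_polyGrowth _ (superLog_tail 𝓛 h𝓛 n) _ (growth P 𝓛 D n)
    rw [ae_iff]
    simpa only [not_not] using h2
  have h2 : ∀ᵐ c ∂coin, ∀ D n : ℕ, ¬ ∃ A : Tensor α D, ∀ (L : ℕ) [NeZero L], n ≤ L → L ∈ 𝓛 →
      Sgn (c L) (bias P (peps A L)) := by
    rw [ae_all_iff]
    intro D
    rw [ae_all_iff]
    exact h1 D
  filter_upwards [h2] with c hc
  rintro Ψ hΨ D A ε hε ⟨n, hn⟩
  refine hc D n ⟨A, fun L _ hL hL' => ?_⟩
  exact sgn_of_close P (c L) (Ψ L) (peps A L) ε hε (hΨ L hL').1 (hΨ L hL').2 (hn L hL hL').1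
    (hn L hL hL').2

lemma cos_small (x : ℝ) (k : ℤ) (h : |x - 1 / 2 - k| ≤ 1 / 8) : |2 * Real.cos (Real.pi * x)| ≤ 4 / 5 := by
  have h1 : Real.pi * x = Real.pi * (x - 1 / 2 - k) + (k * Real.pi) + Real.pi / 2 := by ring
  have h2 : |Real.cos (Real.pi * x)| = |Real.sin (Real.pi * (x - 1 / 2 - k))| := by
    rw [h1, Real.cos_add_pi_div_two, abs_neg, Real.sin_add_int_mul_pi, abs_mul]
    simp
  have h3 : |Real.sin (Real.pi * (x - 1 / 2 - k))| ≤ |Real.pi * (x - 1 / 2 - k)| :=
    Real.abs_sin_le_abs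
  have h4 : |Real.pi * (x - 1 / 2 - k)| ≤ 3.15 * (1 / 8) := by
    rw [abs_mul, abs_of_pos Real.pi_pos]
    have := Real.pi_lt_d2
    gcongr
  have h5 : (3.15 : ℝ) * (1 / 8) ≤ 2 / 5 := by norm_num
  rw [abs_mul, h2, abs_two]
  linarith

lemma cos_big (x : ℝ) (k : ℤ) (h : |x - k| ≤ 1 / 8) : 3 / 2 ≤ |2 * Real.cos (Real.pi * x)| := by
  have h1 : Real.pi * x = Real.pi * (x - k) + k * Real.pi := by ring
  have h2 : |Real.cos (Real.pi * x)| = |Real.cos (Real.pi * (x - k))| := by
    rw [h1, Real.cos_add_int_mul_pi, abs_mul]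
    simp
  have h4 : |Real.pi * (x - k)| ≤ 3.15 * (1 / 8) := by
    rw [abs_mul, abs_of_pos Real.pi_pos]
    have := Real.pi_lt_d2
    gcongr
  have h5 := Real.one_sub_sq_div_two_le_cos (x := Real.pi * (x - k))
  have h6 : (Real.pi * (x - k)) ^ 2 ≤ (3.15 * (1 / 8)) ^ 2 := by
    rw [← sq_abs]
    gcongr
  have h7 : 3 / 4 ≤ Real.cos (Real.pi * (x - k)) := by
    norm_num at h6
    linarith
  rw [abs_mul, h2, abs_of_nonneg (show (0 : ℝ) ≤ Real.cos (Real.pi * (x - k)) by linarith)]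
  norm_num
  linarith

theorem part2 {α : Type} [Fintype α] (a b : α) (hab : a ≠ b) (𝓛 : Set ℕ)
    (h𝓛 : ∀ L ∈ 𝓛, ∀ L' ∈ 𝓛, L < L' → 5 * L ≤ L') (c : ℕ → Bool) :
    ∃ A : Tensor α 3, ∀ (R : Finset (ℤ × ℤ)) (ε : ℝ), 0 < ε →
      ApproxOn 𝓛 R A (constFamily a b c) ε := by
  classical
  obtain ⟨θ, hθ⟩ := nest (l := 1 / 4) (r := 5) (by norm_num) (by norm_num) (fun L => (L : ℝ))
    (fun L => if c L then 0 else 1 / 2) (𝓛 ∩ Set.Ici 1)
    (fun L hL => by exact_mod_cast hL.2)
    (fun L hL L' hL' h => by exact_mod_cast h𝓛 L hL.1 L' hL'.1 h)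
  refine ⟨catT a b θ, fun R ε hε => ?_⟩
  have hpeps : ∀ (L : ℕ) [NeZero L], peps (catT a b θ) L =
      catVec a b (((2 * Real.cos (Real.pi * θ * L)) ^ L : ℝ) : ℂ) L := by
    intro L _
    funext s
    rw [peps_cat a b hab θ L s, catVec]
    split_ifs <;> rfl
  -- sizes
  have t1 : Filter.Tendsto (fun L : ℕ => (3 / 2 : ℝ) ^ L) Filter.atTop Filter.atTop :=
    tendsto_pow_atTop_atTop_of_one_lt (by norm_num)
  have t2 : Filter.Tendsto (fun L : ℕ => (4 / 5 : ℝ) ^ L) Filter.atTop (nhds 0) :=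
    tendsto_pow_atTop_nhds_zero_of_lt_one (by norm_num) (by norm_num)
  obtain ⟨n₁, hn₁⟩ := Filter.eventually_atTop.1 (t1.eventually_ge_atTop (2 / ε + 1))
  obtain ⟨n₂, hn₂⟩ := Filter.eventually_atTop.1 (t2.eventually_le_const
    (show (0 : ℝ) < min 1 (ε / 2) by positivity))
  refine ⟨n₁ + n₂ + R.card + 1, fun L _ hL hL𝓛 => ?_⟩
  have hR : R.card < L ^ 2 := by nlinarith
  rw [hpeps L]
  refine ⟨?_, ?_⟩
  · rw [nrm_catVec a b hab]
    positivity
  obtain ⟨k, hk⟩ := hθ L ⟨hL𝓛, by simp only [Set.mem_Ici]; omega⟩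
  have hw : ‖(((2 * Real.cos (Real.pi * θ * L)) ^ L : ℝ) : ℂ)‖ =
      |2 * Real.cos (Real.pi * (θ * L))| ^ L := by
    rw [Complex.norm_real, Real.norm_eq_abs, abs_pow, mul_assoc]
  unfold constFamily
  by_cases hc : c L
  · rw [if_pos hc]
    rw [if_pos hc, sub_zero] at hk
    refine close_cat_a a b hab _ L R hR ε ?_
    rw [hw]
    have h1 := cos_big (θ * L) k (hk.trans (by norm_num))
    have h2 : (3 / 2 : ℝ) ^ L ≤ |2 * Real.cos (Real.pi * (θ * L))| ^ L := by gcongr
    have h3 := hn₁ L (by omega)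
    set w := |2 * Real.cos (Real.pi * (θ * L))| ^ L with hw'
    have h4 : 2 / ε + 1 ≤ w := h3.trans h2
    have h5 : 0 < 2 / ε := by positivity
    rw [div_le_iff₀ (by positivity)]
    have h6 : 2 / ε * ε = 2 := by field_simp
    have h7 : w ≤ w ^ 2 := by nlinarith
    nlinarith
  · rw [if_neg hc]
    rw [if_neg hc] at hk
    refine close_cat_b a b hab _ L R hR ε ?_
    rw [hw]
    have h1 := cos_small (θ * L) k (hk.trans (by norm_num))
    have h2 : |2 * Real.cos (Real.pi * (θ * L))| ^ L ≤ (4 / 5 : ℝ) ^ L := by gcongr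
    have h3 := hn₂ L (by omega)
    set w := |2 * Real.cos (Real.pi * (θ * L))| ^ L with hw'
    have h4 : w ≤ min 1 (ε / 2) := h2.trans h3
    have h5 : w ≤ 1 := h4.trans (min_le_left _ _)
    have h6 : w ≤ ε / 2 := h4.trans (min_le_right _ _)
    have h7 : 0 ≤ w := by positivity
    nlinarith

/-- **Theorem.** Let `𝓛` be a set of sizes.
(1) If the number of the elements of `𝓛` in `[1, N]` is not `O(log N)` then for almost every sequence
`c` (of fair coin tosses) and every family of vectors on the tori whose one-site states are supported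
on `P = c L`, no translation invariant PEPS tensor of any bond dimension approximates the one-site
states at all large sizes `L ∈ 𝓛` up to `ε < 1` in trace norm.
(2) If `L' ≥ 5 L` for all `L < L'` in `𝓛` then for every sequence `c` one tensor of bond dimension `3`
approximates the vectors `|a ... a⟩` (`c L` true), `|b ... b⟩` (`c L` false) on every region up to every
`ε > 0` for all large sizes in `𝓛`. -/
theorem result (α : Type) [Fintype α] (𝓛 : Set ℕ) :
    (SuperLog 𝓛 → ∀ P : α → Bool, ∀ᵐ c ∂coin, ∀ Ψ : ∀ (L : ℕ) [NeZero L], Conf α L → ℂ,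
      HasPattern P 𝓛 c Ψ → ∀ (D : ℕ) (A : Tensor α D) (ε : ℝ), ε < 1 →
        ¬ ApproxOn 𝓛 origin A Ψ ε) ∧
    ((∀ L ∈ 𝓛, ∀ L' ∈ 𝓛, L < L' → 5 * L ≤ L') → ∀ a b : α, a ≠ b → ∀ c : ℕ → Bool,
      ∃ A : Tensor α 3, ∀ (R : Finset (ℤ × ℤ)) (ε : ℝ), 0 < ε →
        ApproxOn 𝓛 R A (constFamily a b c) ε) :=
  ⟨fun h P => part1 P 𝓛 h, fun h a b hab c => part2 a b hab 𝓛 h c⟩

end Pool.Agent.Results.MP_0f69bf_mp.SizeDependence
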